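import Mathlib

set_option autoImplicit false

namespace Pool.Agent.Results.MP_a55b46_co.SquareRootBound

/-- `Good l m p`: every graph `G` of order `p` satisfies `i(G) ≤ l` or `μ(G) ≤ m`, that is, it has a
maximal independent set with at most `l` vertices or a maximal clique with at most `m` vertices.
The lower Ramsey number `s(l, m)` is the largest `p` with `Good l m p`. -/
def Good (l m p : ℕ) : Prop :=
  ∀ G : SimpleGraph (Fin p),
    (∃ S : Finset (Fin p),
      Maximal (fun T : Finset (Fin p) => G.IsIndepSet (T : Set (Fin p))) S ∧ S.card ≤ l) ∨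
    (∃ S : Finset (Fin p),
      Maximal (fun T : Finset (Fin p) => G.IsClique (T : Set (Fin p))) S ∧ S.card ≤ m)

/-- The graph: `0, …, c - 1` form a clique, the other vertices form an independent set, and the
`j`-th of them is joined to the residues of `m j, m j + 1, …, m j + m - 1` modulo `c`. -/
def adjP (c m : ℕ) (i j : ℕ) : Prop :=
  (i < c ∧ j < c ∧ i ≠ j) ∨
  (i < c ∧ c ≤ j ∧ ∃ r < m, (m * (j - c) + r) % c = i) ∨
  (j < c ∧ c ≤ i ∧ ∃ r < m, (m * (i - c) + r) % c = j)

def GG (c m n : ℕ) : SimpleGraph (Fin n) where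
  Adj i j := adjP c m i j
  symm := ⟨fun i j h => by
    rcases h with ⟨h1, h2, h3⟩ | h | h
    · exact Or.inl ⟨h2, h1, fun e => h3 e.symm⟩
    · exact Or.inr (Or.inr h)
    · exact Or.inr (Or.inl h)⟩
  loopless := ⟨fun i h => by
    rcases h with ⟨_, _, h3⟩ | ⟨h1, h2, _⟩ | ⟨h1, h2, _⟩
    · exact h3 rfl
    · omega
    · omega⟩

theorem not_adj_of_ge {c m n : ℕ} {i j : Fin n} (hi : c ≤ (i : ℕ)) (hj : c ≤ (j : ℕ)) :
    ¬ (GG c m n).Adj i j := by
  intro h
  rcases h with ⟨h1, _, _⟩ | ⟨h1, _, _⟩ | ⟨h1, _, _⟩ <;> omega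

theorem adj_of_lt {c m n : ℕ} {i j : Fin n} (hi : (i : ℕ) < c) (hj : (j : ℕ) < c) (h : i ≠ j) :
    (GG c m n).Adj i j := Or.inl ⟨hi, hj, fun e => h (Fin.ext e)⟩

/-- Every maximal clique has more than `m` vertices, if `m < c ≤ n`. -/
theorem cliques {c m n : ℕ} (hm : 0 < m) (hmc : m < c) (hcn : c ≤ n) (s : Finset (Fin n))
    (hs : Maximal (fun t : Finset (Fin n) => (GG c m n).IsClique (t : Set (Fin n))) s) :
    m < s.card := by
  classical
  have hc : 0 < c := by omega
  by_cases h : ∃ w ∈ s, c ≤ (w : ℕ)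
  · obtain ⟨w, hws, hw⟩ := h
    -- the neighbours of w
    let f : ℕ → Fin n := fun r => ⟨(m * ((w : ℕ) - c) + r) % c,
      lt_of_lt_of_le (Nat.mod_lt _ hc) hcn⟩
    have hfinj : Set.InjOn f (Finset.range m : Set ℕ) := by
      intro a ha b hb hab
      have ha' : a < m := by simpa using ha
      have hb' : b < m := by simpa using hb
      have h1 : (m * ((w : ℕ) - c) + a) % c = (m * ((w : ℕ) - c) + b) % c := by
        simpa [f] using congrArg Fin.val hab
      have h2 : m * ((w : ℕ) - c) + a ≡ m * ((w : ℕ) - c) + b [MOD c] := h1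
      have h3 : a ≡ b [MOD c] := Nat.ModEq.add_left_cancel' _ h2
      exact Nat.ModEq.eq_of_lt_of_lt h3 (by omega) (by omega)
    have hfadj : ∀ r < m, (GG c m n).Adj w (f r) := by
      intro r hr
      refine Or.inr (Or.inr ⟨?_, hw, r, hr, rfl⟩)
      exact Nat.mod_lt _ hc
    have hflt : ∀ r, ((f r : Fin n) : ℕ) < c := fun r => Nat.mod_lt _ hc
    -- a neighbour of w is a value of f
    have hnb : ∀ v : Fin n, (GG c m n).Adj w v → ∃ r < m, f r = v := by
      intro v hv
      rcases hv with ⟨h1, _, _⟩ | ⟨h1, _, _⟩ | ⟨h1, h2, r, hr, h3⟩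
      · omega
      · omega
      · exact ⟨r, hr, Fin.ext h3⟩
    have hclique : (GG c m n).IsClique
        ((insert w ((Finset.range m).image f) : Finset (Fin n)) : Set (Fin n)) := by
      intro a ha b hb hab
      have ha' : a = w ∨ ∃ r < m, f r = a := by
        simpa using ha
      have hb' : b = w ∨ ∃ r < m, f r = b := by
        simpa using hb
      rcases ha' with rfl | ⟨r, hr, rfl⟩
      · rcases hb' with rfl | ⟨r', hr', rfl⟩
        · exact absurd rfl hab
        · exact hfadj _ hr'
      · rcases hb' with rfl | ⟨r', hr', rfl⟩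
        · exact (hfadj _ hr).symm
        · exact adj_of_lt (hflt r) (hflt r') hab
    have hsub : s ≤ insert w ((Finset.range m).image f) := by
      intro a ha
      by_cases haw : a = w
      · simp [haw]
      · have h1 := hs.prop (by simpa using hws) (by simpa using ha) (Ne.symm haw)
        obtain ⟨r, hr, h2⟩ := hnb a h1
        simp only [Finset.mem_insert, Finset.mem_image, Finset.mem_range]
        exact Or.inr ⟨r, hr, h2⟩
    have hle := hs.le_of_ge hclique hsub
    have hcard : (insert w ((Finset.range m).image f)).card = m + 1 := by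
      rw [Finset.card_insert_of_notMem, Finset.card_image_of_injOn hfinj, Finset.card_range]
      intro hmem
      obtain ⟨r, hr, h2⟩ := Finset.mem_image.1 hmem
      have := hflt r
      rw [h2] at this
      omega
    have := Finset.card_le_card hle
    omega
  · push Not at h
    have hclique : (GG c m n).IsClique
        ((Finset.univ.filter (fun v : Fin n => (v : ℕ) < c) : Finset (Fin n)) :
          Set (Fin n)) := by
      intro a ha b hb hab
      exact adj_of_lt (by simpa using ha) (by simpa using hb) hab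
    have hsub : s ≤ Finset.univ.filter (fun v : Fin n => (v : ℕ) < c) := by
      intro a ha
      simpa using h a ha
    have hle := Finset.card_le_card (hs.le_of_ge hclique hsub)
    have hcard : (Finset.univ.filter (fun v : Fin n => (v : ℕ) < c)).card = c := by
      have := Fin.card_filter_val_lt (n := n) (m := c)
      simpa [hcn] using this
    omega

/-- Every maximal independent set has more than `l` vertices, if `n = c + (l + t)` with
`m (l + t) ≤ c t`. -/
theorem indeps {c m n l t : ℕ} (hc : 0 < c) (hm : 0 < m) (ht : 0 < t) (hn : n = c + (l + t))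
    (hct : m * (l + t) ≤ c * t) (s : Finset (Fin n))
    (hs : Maximal (fun T : Finset (Fin n) => (GG c m n).IsIndepSet (T : Set (Fin n))) s) :
    l < s.card := by
  classical
  have hcardW : (Finset.univ.filter (fun v : Fin n => c ≤ (v : ℕ))).card = l + t := by
    have h1 : (Finset.univ.filter (fun v : Fin n => (v : ℕ) < c)).card = c := by
      have := Fin.card_filter_val_lt (n := n) (m := c)
      simpa [hn] using this
    have h2 := Finset.card_filter_add_card_filter_not (s := (Finset.univ : Finset (Fin n)))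
      (p := fun v : Fin n => (v : ℕ) < c)
    simp only [not_lt, Finset.card_univ, Fintype.card_fin] at h2
    omega
  by_cases h : ∃ v ∈ s, (v : ℕ) < c
  · obtain ⟨v, hvs, hv⟩ := h
    -- the neighbours of v among the independent part
    let N : Finset (Fin n) := Finset.univ.filter
      (fun w : Fin n => c ≤ (w : ℕ) ∧ ∃ r < m, (m * ((w : ℕ) - c) + r) % c = (v : ℕ))
    let M : Finset (Fin n) := Finset.univ.filter
      (fun w : Fin n => c ≤ (w : ℕ) ∧ ¬ ∃ r < m, (m * ((w : ℕ) - c) + r) % c = (v : ℕ))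
    have hNM : N.card + M.card = l + t := by
      have h2 := Finset.card_filter_add_card_filter_not
        (s := Finset.univ.filter (fun w : Fin n => c ≤ (w : ℕ)))
        (p := fun w : Fin n => ∃ r < m, (m * ((w : ℕ) - c) + r) % c = (v : ℕ))
      rw [Finset.filter_filter, Finset.filter_filter, hcardW] at h2
      exact h2
    have hN : N.card ≤ t := by
      -- the quotient map is injective
      have hch : ∀ w ∈ N, ∃ r < m, (m * ((w : ℕ) - c) + r) % c = (v : ℕ) := by
        intro w hw
        exact (Finset.mem_filter.1 hw).2.2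
      choose! g hg1 hg2 using hch
      have hmaps : ∀ w ∈ N, (m * ((w : ℕ) - c) + g w) / c ∈ Finset.range t := by
        intro w hw
        rw [Finset.mem_range, Nat.div_lt_iff_lt_mul hc]
        have h1 : (w : ℕ) - c < l + t := by
          have := w.isLt
          omega
        have h2 : m * ((w : ℕ) - c) + g w < m * (l + t) := by
          have h3 : m * ((w : ℕ) - c) + m ≤ m * (l + t) := by
            calc m * ((w : ℕ) - c) + m = m * ((w : ℕ) - c + 1) := by ring
              _ ≤ m * (l + t) := Nat.mul_le_mul_left _ h1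
          have := hg1 w hw
          omega
        calc m * ((w : ℕ) - c) + g w < m * (l + t) := h2
          _ ≤ c * t := hct
          _ = t * c := Nat.mul_comm _ _
      have hinj : Set.InjOn (fun w : Fin n => (m * ((w : ℕ) - c) + g w) / c) (N : Set (Fin n)) := by
        intro a ha b hb hab
        have hab' : (m * ((a : ℕ) - c) + g a) / c = (m * ((b : ℕ) - c) + g b) / c := hab
        have ha1 := hg2 a ha
        have hb1 := hg2 b hb
        have e1 := Nat.div_add_mod (m * ((a : ℕ) - c) + g a) c
        have e2 := Nat.div_add_mod (m * ((b : ℕ) - c) + g b) c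
        rw [hab', ha1] at e1
        rw [hb1] at e2
        have e3 : m * ((a : ℕ) - c) + g a = m * ((b : ℕ) - c) + g b := e1.symm.trans e2
        have ea : (m * ((a : ℕ) - c) + g a) / m = (a : ℕ) - c := by
          rw [Nat.mul_add_div hm, Nat.div_eq_of_lt (hg1 a ha), Nat.add_zero]
        have eb : (m * ((b : ℕ) - c) + g b) / m = (b : ℕ) - c := by
          rw [Nat.mul_add_div hm, Nat.div_eq_of_lt (hg1 b hb), Nat.add_zero]
        have e4 : (a : ℕ) - c = (b : ℕ) - c := by
          rw [← ea, ← eb, e3]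
        have ha2 : c ≤ (a : ℕ) := (Finset.mem_filter.1 ha).2.1
        have hb2 : c ≤ (b : ℕ) := (Finset.mem_filter.1 hb).2.1
        exact Fin.ext (by omega)
      have := Finset.card_le_card_of_injOn _ hmaps hinj
      simpa using this
    have hind : (GG c m n).IsIndepSet ((insert v M : Finset (Fin n)) : Set (Fin n)) := by
      intro a ha b hb hab
      have ha' : a = v ∨ (c ≤ (a : ℕ) ∧
          ¬ ∃ r < m, (m * ((a : ℕ) - c) + r) % c = (v : ℕ)) := by
        simpa [M] using ha
      have hb' : b = v ∨ (c ≤ (b : ℕ) ∧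
          ¬ ∃ r < m, (m * ((b : ℕ) - c) + r) % c = (v : ℕ)) := by
        simpa [M] using hb
      rcases ha' with rfl | ⟨ha1, ha2⟩
      · rcases hb' with rfl | ⟨hb1, hb2⟩
        · exact absurd rfl hab
        · intro hadj
          rcases hadj with ⟨_, h2, _⟩ | ⟨_, _, h3⟩ | ⟨h2, _, _⟩
          · omega
          · exact hb2 h3
          · omega
      · rcases hb' with rfl | ⟨hb1, hb2⟩
        · intro hadj
          rcases hadj with ⟨h2, _, _⟩ | ⟨h2, _, _⟩ | ⟨_, _, h3⟩
          · omega
          · omega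
          · exact ha2 h3
        · exact not_adj_of_ge ha1 hb1
    have hsub : s ≤ insert v M := by
      intro a ha
      by_cases hav : a = v
      · simp [hav]
      · have h1 : ¬ (GG c m n).Adj v a :=
          hs.prop (by simpa using hvs) (by simpa using ha) (Ne.symm hav)
        have h2 : c ≤ (a : ℕ) := by
          by_contra h3
          exact h1 (adj_of_lt hv (by omega) (Ne.symm hav))
        have h3 : ¬ ∃ r < m, (m * ((a : ℕ) - c) + r) % c = (v : ℕ) :=
          fun h4 => h1 (Or.inr (Or.inl ⟨hv, h2, h4⟩))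
        simp only [Finset.mem_insert, M, Finset.mem_filter, Finset.mem_univ, true_and]
        exact Or.inr ⟨h2, h3⟩
    have hle := Finset.card_le_card (hs.le_of_ge hind hsub)
    have hcard : (insert v M).card = M.card + 1 := by
      rw [Finset.card_insert_of_notMem]
      intro hmem
      have := (Finset.mem_filter.1 hmem).2.1
      omega
    omega
  · push Not at h
    have hind : (GG c m n).IsIndepSet
        ((Finset.univ.filter (fun v : Fin n => c ≤ (v : ℕ)) : Finset (Fin n)) :
          Set (Fin n)) := by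
      intro a ha b hb hab
      exact not_adj_of_ge (by simpa using ha) (by simpa using hb)
    have hsub : s ≤ Finset.univ.filter (fun v : Fin n => c ≤ (v : ℕ)) := by
      intro a ha
      simpa using h a ha
    have hle := Finset.card_le_card (hs.le_of_ge hind hsub)
    omega

/-- No `p ≥ l + m + t` is good if `t ^ 2 ≥ 4 l m`. -/
theorem not_good {l m t p : ℕ} (hl : 1 ≤ l) (hm : 1 ≤ m) (ht : 4 * (l * m) ≤ t ^ 2)
    (hp : l + m + t ≤ p) : ¬ Good l m p := by
  intro hgood
  obtain ⟨t', rfl⟩ : ∃ t', p = l + m + t' := ⟨p - (l + m), by omega⟩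
  have ht' : 4 * (l * m) ≤ t' ^ 2 := le_trans ht (Nat.pow_le_pow_left (by omega) 2)
  set a := t' / 2 with ha
  set b := t' - t' / 2 with hb
  have hlm : 1 ≤ l * m := Nat.one_le_iff_ne_zero.2 (by positivity)
  have hab : l * m ≤ a * b := by
    rcases Nat.even_or_odd t' with ⟨u, hu⟩ | ⟨u, hu⟩
    · have h1 : a = u := by omega
      have h2 : b = u := by omega
      rw [h1, h2]
      rw [hu] at ht'
      nlinarith
    · have h1 : a = u := by omega
      have h2 : b = u + 1 := by omega
      rw [h1, h2]
      rw [hu] at ht'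
      have h3 : 4 * (l * m) ≤ 4 * (u * (u + 1)) + 1 := by nlinarith
      omega
  have ha0 : 0 < a := by
    rcases Nat.eq_zero_or_pos a with h0 | h0
    · rw [h0] at hab
      omega
    · exact h0
  have hb0 : 0 < b := by
    rcases Nat.eq_zero_or_pos b with h0 | h0
    · rw [h0] at hab
      omega
    · exact h0
  have hsum : l + m + t' = (m + a) + (l + b) := by omega
  have hct : m * (l + b) ≤ (m + a) * b := by nlinarith
  rcases hgood (GG (m + a) m (l + m + t')) with ⟨S, hS, hc⟩ | ⟨S, hS, hc⟩
  · have := indeps (c := m + a) (m := m) (n := l + m + t') (l := l) (t := b) (by omega) (by omega)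
      hb0 hsum hct S hS
    omega
  · have := cliques (c := m + a) (m := m) (n := l + m + t') (by omega) (by omega) (by omega) S hS
    omega

/-- Zero is good. -/
theorem good_zero (l m : ℕ) : Good l m 0 := by
  intro G
  left
  refine ⟨∅, ⟨?_, ?_⟩, by simp⟩
  · intro a ha
    simp at ha
  · intro T _ _ a _
    exact a.elim0

theorem exists_greatest {l m : ℕ} (hl : 1 ≤ l) (hm : 1 ≤ m) :
    ∃ s : ℕ, IsGreatest {p : ℕ | Good l m p} s := by
  classical
  have hbdd : BddAbove {p : ℕ | Good l m p} := by
    refine ⟨l + m + 4 * (l * m), ?_⟩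
    intro p hp
    by_contra hlt
    push Not at hlt
    refine not_good (t := 4 * (l * m)) hl hm ?_ (by omega) hp
    nlinarith [Nat.zero_le (l * m)]
  refine ⟨sSup {p : ℕ | Good l m p}, Nat.sSup_mem ⟨0, good_zero l m⟩ hbdd, ?_⟩
  intro p hp
  exact le_csSup hbdd hp

/-- For all `l, m ≥ 1` the lower Ramsey number `s = s(l, m)` exists and
`s ≤ l + m - 1 + ⌈2 √(l m)⌉`. For `m = 2 l + 2` every value `q(a, b) - 1` of the conjectured formula,
`(a, b) ∈ N_m`, exceeds `s` by at least `(3 - 2 √2) l - √2`. -/
theorem result :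
    ∀ l m : ℕ, 1 ≤ l → 1 ≤ m →
      ∃ s : ℕ, IsGreatest {p : ℕ | Good l m p} s ∧
        s + 1 ≤ l + m + ⌈2 * Real.sqrt ((l : ℝ) * m)⌉₊ ∧
        (m = 2 * l + 2 → ∀ a b : ℕ, 0 < a → a ≤ b → a * b ≤ m → m ≤ a * (b + 1) →
          (s : ℝ) + ((3 - 2 * Real.sqrt 2) * l - Real.sqrt 2) ≤
            ((l + m + a * l + b + (if m = a * b then 0 else 1) : ℕ) : ℝ) - 1) := by
  intro l m hl hm
  obtain ⟨s, hs⟩ := exists_greatest hl hm
  have hkey : ∀ t : ℕ, 4 * (l * m) ≤ t ^ 2 → s + 1 ≤ l + m + t := by
    intro t ht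
    by_contra hlt
    exact not_good hl hm ht (by omega) hs.1
  have hceil : s + 1 ≤ l + m + ⌈2 * Real.sqrt ((l : ℝ) * m)⌉₊ := by
    apply hkey
    have h1 : 2 * Real.sqrt ((l : ℝ) * m) ≤ (⌈2 * Real.sqrt ((l : ℝ) * m)⌉₊ : ℝ) := Nat.le_ceil _
    have h2 : (0 : ℝ) ≤ 2 * Real.sqrt ((l : ℝ) * m) := by positivity
    have h3 : (2 * Real.sqrt ((l : ℝ) * m)) ^ 2 ≤ (⌈2 * Real.sqrt ((l : ℝ) * m)⌉₊ : ℝ) ^ 2 :=
      pow_le_pow_left₀ h2 h1 2
    have h4 : (2 * Real.sqrt ((l : ℝ) * m)) ^ 2 = 4 * ((l : ℝ) * m) := by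
      rw [mul_pow, Real.sq_sqrt (by positivity)]
      norm_num
    rw [h4] at h3
    exact_mod_cast h3
  refine ⟨s, hs, hceil, ?_⟩
  intro hm2 a b ha hab h1 h2
  -- the conjectured formula for m = 2 l + 2
  have hq : 3 * l + 1 ≤ a * l + b + (if m = a * b then 0 else 1) := by
    rcases Nat.lt_or_ge a 2 with h3 | h3
    · have : a = 1 := by omega
      subst this
      split_ifs with h4 <;> omega
    · rcases Nat.lt_or_ge a 3 with h4 | h4
      · have : a = 2 := by omega
        subst this
        split_ifs with h5 <;> omega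
      · have : 3 * l ≤ a * l := Nat.mul_le_mul_right _ h4
        split_ifs <;> omega
  -- the upper bound
  have hl1 : (1 : ℝ) ≤ l := by exact_mod_cast hl
  have hs1 : (s : ℝ) + 1 ≤ l + m + (2 * Real.sqrt ((l : ℝ) * m) + 1) := by
    have h3 : (⌈2 * Real.sqrt ((l : ℝ) * m)⌉₊ : ℝ) < 2 * Real.sqrt ((l : ℝ) * m) + 1 :=
      Nat.ceil_lt_add_one (by positivity)
    have h4 : ((s + 1 : ℕ) : ℝ) ≤ ((l + m + ⌈2 * Real.sqrt ((l : ℝ) * m)⌉₊ : ℕ) : ℝ) := by
      exact_mod_cast hceil
    push_cast at h4
    linarith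
  have hsq : Real.sqrt ((l : ℝ) * m) ≤ Real.sqrt 2 * ((l : ℝ) + 1 / 2) := by
    have hm3 : (m : ℝ) = 2 * l + 2 := by exact_mod_cast hm2
    rw [Real.sqrt_le_left (by positivity), mul_pow, Real.sq_sqrt (by norm_num), hm3]
    nlinarith
  have hq' : ((3 * l + 1 : ℕ) : ℝ) ≤ ((a * l + b + (if m = a * b then 0 else 1) : ℕ) : ℝ) := by
    exact_mod_cast hq
  have h5 : ((l + m + a * l + b + (if m = a * b then 0 else 1) : ℕ) : ℝ) =
      (l : ℝ) + m + ((a * l + b + (if m = a * b then 0 else 1) : ℕ) : ℝ) := by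
    push_cast
    ring
  rw [h5]
  push_cast at hq' ⊢
  linarith

end Pool.Agent.Results.MP_a55b46_co.SquareRootBound
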